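import Mathlib

set_option autoImplicit false

/-! Multispecies TASEP on a ring: conditionally on the positions of the small entries, the least
probable arrangement of the large entries need not be cyclically descending. -/

namespace Pool.Agent.Results.MP_01b7fc_pr.DescendingFails

open Finset

/-- words: `w p` is the entry at the position `p`; entries and positions are `0, …, n-1` -/
abbrev Word (n : ℕ) : Type := Equiv.Perm (Fin n)

/-- the word obtained from `w` when the entry at `p` swaps with its cyclic left neighbour, which is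
at `p - 1` (modulo `n`) -/
def swapLeft {n : ℕ} [NeZero n] (w : Word n) (p : Fin n) : Word n := w * Equiv.swap (p - 1) p

/-- jump rate from `w` to `v`: the entry `w p` rings at rate `1 / t (w p)` and swaps with its left
neighbour if that neighbour is larger -/
noncomputable def rate {n : ℕ} [NeZero n] (t : Fin n → ℝ) (w v : Word n) : ℝ :=
  ∑ p, if w p < w (p - 1) ∧ v = swapLeft w p then 1 / t (w p) else 0

/-- `π` is a stationary distribution: a probability distribution satisfying the balance equations -/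
def IsStationary {n : ℕ} [NeZero n] (t : Fin n → ℝ) (π : Word n → ℝ) : Prop :=
  (∀ w, 0 ≤ π w) ∧ ∑ w, π w = 1 ∧
    ∀ v, ∑ w, π w * rate t w v = π v * ∑ u, rate t v u

/-- the event `E` that each small entry `i < k` is at the position `pos i` -/
def Ev {n : ℕ} (k : ℕ) (pos : Fin n → Fin n) (w : Word n) : Prop :=
  ∀ i : Fin n, (i : ℕ) < k → w (pos i) = i

instance {n : ℕ} (k : ℕ) (pos : Fin n → Fin n) (w : Word n) : Decidable (Ev k pos w) := by
  unfold Ev; infer_instance

/-- the arrangement of the large entries `k, …, n-1`, read in the order of their positions -/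
def arrangement {n : ℕ} (k : ℕ) (w : Word n) : List (Fin n) :=
  (List.ofFn w).filter fun x => k ≤ (x : ℕ)

/-- `P (arrangement = σ | E)` -/
noncomputable def condProb {n : ℕ} (k : ℕ) (pos : Fin n → Fin n) (π : Word n → ℝ)
    (σ : List (Fin n)) : ℝ :=
  (∑ w, if Ev k pos w ∧ arrangement k w = σ then π w else 0) / ∑ w, if Ev k pos w then π w else 0

/-- `σ` is a cyclic rotation of `n-1, n-2, …, k` -/
def CycDesc {n : ℕ} (k : ℕ) (σ : List (Fin n)) : Prop :=
  σ.IsRotated (((List.finRange n).filter fun x : Fin n => k ≤ (x : ℕ)).reverse)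

/-! ### the balance equations position by position -/

section general

variable {n : ℕ} [NeZero n] (t : Fin n → ℝ)

lemma swapLeft_swapLeft (w : Word n) (p : Fin n) : swapLeft (swapLeft w p) p = w := by
  unfold swapLeft
  rw [mul_assoc, Equiv.swap_mul_self, mul_one]

lemma swapLeft_at (w : Word n) (p : Fin n) : swapLeft w p p = w (p - 1) := by
  unfold swapLeft
  rw [Equiv.Perm.mul_apply, Equiv.swap_apply_right]

lemma swapLeft_left (w : Word n) (p : Fin n) : swapLeft w p (p - 1) = w p := by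
  unfold swapLeft
  rw [Equiv.Perm.mul_apply, Equiv.swap_apply_left]

lemma inflow (π : Word n → ℝ) (v : Word n) :
    ∑ w, π w * rate t w v =
      ∑ p, if v (p - 1) < v p then π (swapLeft v p) * (1 / t (v (p - 1))) else 0 := by
  unfold rate
  simp only [Finset.mul_sum]
  rw [Finset.sum_comm]
  refine Finset.sum_congr rfl fun p _ => ?_
  rw [Finset.sum_eq_single (swapLeft v p)]
  · rw [swapLeft_at, swapLeft_left, swapLeft_swapLeft]
    by_cases h : v (p - 1) < v p
    · rw [if_pos ⟨h, rfl⟩, if_pos h]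
    · rw [if_neg (fun hh => h hh.1), if_neg h, mul_zero]
  · intro w _ hw
    rw [if_neg, mul_zero]
    rintro ⟨-, h⟩
    apply hw
    rw [h, swapLeft_swapLeft]
  · intro h; exact absurd (Finset.mem_univ _) h

lemma outflow (v : Word n) :
    ∑ u, rate t v u = ∑ p, if v p < v (p - 1) then 1 / t (v p) else 0 := by
  unfold rate
  rw [Finset.sum_comm]
  refine Finset.sum_congr rfl fun p _ => ?_
  rw [Finset.sum_eq_single (swapLeft v p)]
  · by_cases h : v p < v (p - 1)
    · rw [if_pos ⟨h, rfl⟩, if_pos h]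
    · rw [if_neg (fun hh => h hh.1), if_neg h]
  · intro w _ hw
    rw [if_neg]
    rintro ⟨-, h⟩
    exact hw h
  · intro h; exact absurd (Finset.mem_univ _) h

lemma rate_nonneg (ht : ∀ i, 0 < t i) (w v : Word n) : 0 ≤ rate t w v := by
  unfold rate
  refine Finset.sum_nonneg fun p _ => ?_
  split_ifs
  · have := ht (w p); positivity
  · exact le_rfl

lemma rate_pos (ht : ∀ i, 0 < t i) (w : Word n) (p : Fin n) (h : w p < w (p - 1)) :
    0 < rate t w (swapLeft w p) := by
  have h1 : 0 < 1 / t (w p) := by have := ht (w p); positivity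
  refine lt_of_lt_of_le h1 ?_
  unfold rate
  have h2 := Finset.single_le_sum (f := fun p' =>
    if w p' < w (p' - 1) ∧ swapLeft w p = swapLeft w p' then 1 / t (w p') else 0)
    (fun p' _ => by
      have := ht (w p')
      split_ifs
      · positivity
      · exact le_rfl) (Finset.mem_univ p)
  rw [if_pos ⟨h, rfl⟩] at h2
  exact h2

/-- the ratio of two stationary distributions is constant along transitions -/
lemma ratio_eq (ht : ∀ i, 0 < t i) (π π' : Word n → ℝ) (hπ : IsStationary t π)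
    (hpos : ∀ w, 0 < π w) (hπ' : IsStationary t π') (w v : Word n) (h : 0 < rate t w v) :
    π' w / π w = π' v / π v := by
  set f : Word n → ℝ := fun w => π' w / π w with hf
  have hfπ : ∀ w, π w * f w = π' w := fun w => by
    simp only [hf]; field_simp [(hpos w).ne']
  have hA : ∀ v, ∑ w, π w * rate t w v = π v * ∑ u, rate t v u := hπ.2.2
  have hB : ∀ v, ∑ w, π w * f w * rate t w v = π v * f v * ∑ u, rate t v u := by
    intro v
    simp only [hfπ]
    exact hπ'.2.2 v
  have hE : ∑ w, ∑ v, π w * rate t w v * (f w - f v) ^ 2 = 0 := by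
    have e1 : ∀ w v, π w * rate t w v * (f w - f v) ^ 2 =
        π w * f w ^ 2 * rate t w v + f v ^ 2 * (π w * rate t w v) -
          2 * (f v * (π w * f w * rate t w v)) := by
      intro w v; ring
    simp only [e1, Finset.sum_sub_distrib, Finset.sum_add_distrib]
    have e2 : ∑ w, ∑ v, π w * f w ^ 2 * rate t w v = ∑ w, π w * f w ^ 2 * ∑ v, rate t w v := by
      refine Finset.sum_congr rfl fun w _ => ?_
      rw [Finset.mul_sum]
    have e3 : ∑ w, ∑ v, f v ^ 2 * (π w * rate t w v) =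
        ∑ w, π w * f w ^ 2 * ∑ v, rate t w v := by
      rw [Finset.sum_comm]
      refine Finset.sum_congr rfl fun v _ => ?_
      rw [← Finset.mul_sum, hA v]; ring
    have e4 : ∑ w, ∑ v, 2 * (f v * (π w * f w * rate t w v)) =
        2 * ∑ w, π w * f w ^ 2 * ∑ v, rate t w v := by
      rw [Finset.sum_comm, Finset.mul_sum]
      refine Finset.sum_congr rfl fun v _ => ?_
      rw [← Finset.mul_sum, ← Finset.mul_sum, hB v]; ring
    rw [e2, e3, e4]; ring
  have hnn : ∀ w v, 0 ≤ π w * rate t w v * (f w - f v) ^ 2 := fun w v =>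
    mul_nonneg (mul_nonneg (hpos w).le (rate_nonneg t ht w v)) (sq_nonneg _)
  have h1 := (Finset.sum_eq_zero_iff_of_nonneg (fun w _ =>
    Finset.sum_nonneg fun v _ => hnn w v)).1 hE w (Finset.mem_univ _)
  have h2 := (Finset.sum_eq_zero_iff_of_nonneg (fun v _ => hnn w v)).1 h1 v (Finset.mem_univ _)
  have h3 : (f w - f v) ^ 2 = 0 := by
    rcases mul_eq_zero.1 h2 with h | h
    · exact absurd h (mul_pos (hpos w) (by assumption)).ne'
    · exact h
  have h4 : f w - f v = 0 := by simpa using h3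
  have h5 : f w = f v := by linarith
  exact h5

end general

/-- uniqueness of the stationary distribution for six entries -/
lemma uniq (t : Fin 6 → ℝ) (ht : ∀ i, 0 < t i) (π π' : Word 6 → ℝ) (hπ : IsStationary t π)
    (hpos : ∀ w, 0 < π w) (hπ' : IsStationary t π') : π' = π := by
  have hstep : ∀ (v : Word 6) (p : Fin 6),
      π' (swapLeft v p) / π (swapLeft v p) = π' v / π v := by
    intro v p
    rcases lt_trichotomy (v p) (v (p - 1)) with h | h | h
    · exact (ratio_eq t ht π π' hπ hpos hπ' v _ (rate_pos t ht v p h)).symm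
    · exfalso
      have h2 := v.injective h
      have h3 : ∀ p : Fin 6, p ≠ p - 1 := by decide
      exact h3 p h2
    · have h2 : (swapLeft v p) p < (swapLeft v p) (p - 1) := by
        rw [swapLeft_at, swapLeft_left]; exact h
      have h3 := rate_pos t ht (swapLeft v p) p h2
      rw [swapLeft_swapLeft] at h3
      exact ratio_eq t ht π π' hπ hpos hπ' _ _ h3
  have hall : ∀ g : Word 6, ∀ v : Word 6, π' (v * g) / π (v * g) = π' v / π v := by
    intro g
    have hg : g ∈ Submonoid.closure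
        (Set.range fun i : Fin 5 => (Equiv.swap i.castSucc i.succ : Equiv.Perm (Fin 6))) := by
      rw [Equiv.Perm.mclosure_swap_castSucc_succ]; trivial
    refine Submonoid.closure_induction (motive := fun g _ => ∀ v : Word 6,
      π' (v * g) / π (v * g) = π' v / π v) ?_ ?_ ?_ hg
    · rintro x ⟨i, rfl⟩ v
      have h1 : ∀ i : Fin 5, i.succ - 1 = (i.castSucc : Fin 6) := by decide
      have h2 := hstep v i.succ
      unfold swapLeft at h2
      rw [h1 i] at h2
      exact h2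
    · intro v; rw [mul_one]
    · intro x y _ _ hx hy v
      rw [← mul_assoc, hy, hx]
  have hconst : ∀ v : Word 6, π' v = (π' 1 / π 1) * π v := by
    intro v
    have h1 := hall v 1
    rw [one_mul] at h1
    rw [← h1]
    field_simp [(hpos v).ne']
  have hc : π' 1 / π 1 = 1 := by
    have h1 : ∑ v, π' v = (π' 1 / π 1) * ∑ v, π v := by
      rw [Finset.mul_sum]
      exact Finset.sum_congr rfl fun v _ => hconst v
    rw [hπ'.2.1, hπ.2.1, mul_one] at h1
    exact h1.symm
  funext v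
  rw [hconst v, hc, one_mul]

/-! ### the stationary weights for `t = (1, 1, 1, 16, 1, 1)` -/

def tab : List (List (List (List ℕ))) := [
[],
  [[],
   [],
   [[], [], [], [0, 0, 0, 0, 310000, 15500], [0, 0, 0, 56000, 0, 256000], [0, 0, 0, 263200, 12800]],
   [[], [], [0, 0, 0, 0, 167000, 8350], [], [0, 0, 83650, 0, 0, 31000], [0, 0, 12950, 0, 1550]],
   [[], [], [0, 0, 0, 21100, 0, 156800], [0, 0, 8000, 0, 0, 5600], [], [0, 0, 87400, 25600]],
   [[], [], [0, 0, 0, 173570, 21280], [0, 0, 77680, 0, 26320], [0, 0, 4370, 1280]]],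
  [[],
   [[], [], [], [0, 0, 0, 0, 62000, 3100], [0, 0, 0, 11200, 0, 51200], [0, 0, 0, 52640, 2560]],
   [],
   [[], [0, 0, 0, 0, 89200, 4460], [], [], [0, 88340, 0, 0, 0, 62000], [0, 9100, 0, 0, 3100]],
   [[], [0, 0, 0, 14300, 0, 77440], [], [0, 12160, 0, 0, 0, 11200], [], [0, 81800, 0, 51200]],
   [[], [0, 0, 0, 82090, 6560], [], [0, 78560, 0, 0, 52640], [0, 4090, 0, 2560]]],
  [[],
   [[], [], [0, 0, 0, 0, 208600, 10430], [], [0, 0, 119070, 0, 0, 53900], [0, 0, 16905, 0, 2695]],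
   [[], [0, 0, 0, 0, 31700, 1585], [], [], [0, 42315, 0, 0, 0, 33400], [0, 3780, 0, 0, 1670]],
   [],
   [[], [0, 0, 146510, 0, 0, 71605], [0, 16105, 0, 0, 0, 16730], [], [], [0, 86800, 6200]],
   [[], [0, 0, 26740, 0, 6410], [0, 3110, 0, 0, 2590], [], [0, 4340, 310]]],
  [[],
   [[], [], [0, 0, 0, 20180, 0, 204640], [0, 0, 9300, 0, 0, 8830], [], [0, 0, 127350, 46400]],
   [[], [0, 0, 0, 2770, 0, 31520], [], [0, 3240, 0, 0, 0, 4220], [], [0, 43890, 0, 31360]],
   [[], [0, 0, 10720, 0, 0, 10640], [0, 1040, 0, 0, 0, 1600], [], [], [0, 15680, 1120]],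
   [],
   [[], [0, 0, 162080, 64420], [0, 18220, 0, 17480], [0, 71680, 5120]]],
  [[],
   [[], [], [0, 0, 0, 233416, 35264], [0, 0, 118359, 0, 48941], [0, 0, 10956, 3664]],
   [[], [0, 0, 0, 36269, 5776], [], [0, 46446, 0, 0, 34714], [0, 6489, 0, 4256]],
   [[], [0, 0, 139136, 0, 62944], [0, 15424, 0, 0, 15536], [], [0, 73696, 5264]],
   [[], [0, 0, 8104, 3221], [0, 911, 0, 874], [0, 3584, 256]]]]


/-- the weight of the word `a0 a1 a2 a3 a4 a5`: the table is indexed by the first four entries that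
follow the entry `0` cyclically -/
def wtL (a0 a1 a2 a3 a4 a5 : Fin 6) : ℕ :=
  if a0 = 0 then ((((tab.getD a1 []).getD a2 []).getD a3 []).getD a4 0) else
  if a1 = 0 then ((((tab.getD a2 []).getD a3 []).getD a4 []).getD a5 0) else
  if a2 = 0 then ((((tab.getD a3 []).getD a4 []).getD a5 []).getD a0 0) else
  if a3 = 0 then ((((tab.getD a4 []).getD a5 []).getD a0 []).getD a1 0) else
  if a4 = 0 then ((((tab.getD a5 []).getD a0 []).getD a1 []).getD a2 0) else
  if a5 = 0 then ((((tab.getD a0 []).getD a1 []).getD a2 []).getD a3 0) else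
  0

/-- `16 / t` -/
def r (x : Fin 6) : ℕ := if x = 3 then 1 else 16

def chk (a0 a1 a2 a3 a4 a5 : Fin 6) : Bool :=
  Nat.blt 0 (wtL a0 a1 a2 a3 a4 a5) && Nat.beq (
    (if a5 < a0 then wtL a5 a1 a2 a3 a4 a0 * r a5 else 0) +
    (if a0 < a1 then wtL a1 a0 a2 a3 a4 a5 * r a0 else 0) +
    (if a1 < a2 then wtL a0 a2 a1 a3 a4 a5 * r a1 else 0) +
    (if a2 < a3 then wtL a0 a1 a3 a2 a4 a5 * r a2 else 0) +
    (if a3 < a4 then wtL a0 a1 a2 a4 a3 a5 * r a3 else 0) +
    (if a4 < a5 then wtL a0 a1 a2 a3 a5 a4 * r a4 else 0))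
    (wtL a0 a1 a2 a3 a4 a5 *
      ((if a0 < a5 then r a0 else 0) + (if a1 < a0 then r a1 else 0) +
       (if a2 < a1 then r a2 else 0) + (if a3 < a2 then r a3 else 0) +
       (if a4 < a3 then r a4 else 0) + (if a5 < a4 then r a5 else 0)))

lemma chk_all : ∀ a0 a1 : Fin 6, a1 ≠ a0 → ∀ a2 : Fin 6, (a2 ≠ a0 ∧ a2 ≠ a1) →
    ∀ a3 : Fin 6, (a3 ≠ a0 ∧ a3 ≠ a1 ∧ a3 ≠ a2) →
    ∀ a4 : Fin 6, (a4 ≠ a0 ∧ a4 ≠ a1 ∧ a4 ≠ a2 ∧ a4 ≠ a3) →
    ∀ a5 : Fin 6, (a5 ≠ a0 ∧ a5 ≠ a1 ∧ a5 ≠ a2 ∧ a5 ≠ a3 ∧ a5 ≠ a4) →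
    chk a0 a1 a2 a3 a4 a5 = true := by
  decide +kernel

lemma balL (a0 a1 a2 a3 a4 a5 : Fin 6) (h : chk a0 a1 a2 a3 a4 a5 = true) :
    0 < wtL a0 a1 a2 a3 a4 a5 ∧
    (if a5 < a0 then wtL a5 a1 a2 a3 a4 a0 * r a5 else 0) +
    (if a0 < a1 then wtL a1 a0 a2 a3 a4 a5 * r a0 else 0) +
    (if a1 < a2 then wtL a0 a2 a1 a3 a4 a5 * r a1 else 0) +
    (if a2 < a3 then wtL a0 a1 a3 a2 a4 a5 * r a2 else 0) +
    (if a3 < a4 then wtL a0 a1 a2 a4 a3 a5 * r a3 else 0) +
    (if a4 < a5 then wtL a0 a1 a2 a3 a5 a4 * r a4 else 0) =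
    wtL a0 a1 a2 a3 a4 a5 *
      ((if a0 < a5 then r a0 else 0) + (if a1 < a0 then r a1 else 0) +
       (if a2 < a1 then r a2 else 0) + (if a3 < a2 then r a3 else 0) +
       (if a4 < a3 then r a4 else 0) + (if a5 < a4 then r a5 else 0)) := by
  unfold chk at h
  rw [Bool.and_eq_true, Nat.beq_eq] at h
  exact ⟨by simpa [Nat.blt_eq] using h.1, h.2⟩

def wt (w : Word 6) : ℕ := wtL (w 0) (w 1) (w 2) (w 3) (w 4) (w 5)

/-- the inverse rates -/
noncomputable def t6 (x : Fin 6) : ℝ := if x = 3 then 16 else 1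

lemma t6_pos : ∀ i, 0 < t6 i := by
  intro i
  unfold t6
  split_ifs <;> norm_num

lemma t6_eq (x : Fin 6) : 1 / t6 x = (r x : ℝ) / 16 := by
  unfold t6 r
  split_ifs <;> norm_num

lemma wt_swap (v : Word 6) :
    wt (swapLeft v 0) = wtL (v 5) (v 1) (v 2) (v 3) (v 4) (v 0) ∧
    wt (swapLeft v 1) = wtL (v 1) (v 0) (v 2) (v 3) (v 4) (v 5) ∧
    wt (swapLeft v 2) = wtL (v 0) (v 2) (v 1) (v 3) (v 4) (v 5) ∧
    wt (swapLeft v 3) = wtL (v 0) (v 1) (v 3) (v 2) (v 4) (v 5) ∧
    wt (swapLeft v 4) = wtL (v 0) (v 1) (v 2) (v 4) (v 3) (v 5) ∧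
    wt (swapLeft v 5) = wtL (v 0) (v 1) (v 2) (v 3) (v 5) (v 4) := by
  refine ⟨?_, ?_, ?_, ?_, ?_, ?_⟩ <;>
  · unfold wt swapLeft
    simp only [Equiv.Perm.mul_apply]
    rfl

lemma wt_bal (v : Word 6) : 0 < wt v ∧
    (∑ p, if v (p - 1) < v p then wt (swapLeft v p) * r (v (p - 1)) else 0) =
      wt v * ∑ p, if v p < v (p - 1) then r (v p) else 0 := by
  have hne : ∀ i j : Fin 6, i ≠ j → v i ≠ v j := fun i j h hv => h (v.injective hv)
  obtain ⟨s0, s1, s2, s3, s4, s5⟩ := wt_swap v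
  have h := balL (v 0) (v 1) (v 2) (v 3) (v 4) (v 5) <| chk_all (v 0) (v 1)
    (hne _ _ (by decide)) (v 2) ⟨hne _ _ (by decide), hne _ _ (by decide)⟩ (v 3)
    ⟨hne _ _ (by decide), hne _ _ (by decide), hne _ _ (by decide)⟩ (v 4)
    ⟨hne _ _ (by decide), hne _ _ (by decide), hne _ _ (by decide), hne _ _ (by decide)⟩ (v 5)
    ⟨hne _ _ (by decide), hne _ _ (by decide), hne _ _ (by decide), hne _ _ (by decide),
      hne _ _ (by decide)⟩
  refine ⟨h.1, ?_⟩
  rw [Fin.sum_univ_six, Fin.sum_univ_six, s0, s1, s2, s3, s4, s5]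
  exact h.2

noncomputable def tot : ℝ := ∑ w : Word 6, (wt w : ℝ)

noncomputable def pi6 (w : Word 6) : ℝ := (wt w : ℝ) / tot

lemma wt_posR (w : Word 6) : (0 : ℝ) < wt w := by exact_mod_cast (wt_bal w).1

lemma tot_pos : 0 < tot := Finset.sum_pos (fun w _ => wt_posR w) ⟨1, Finset.mem_univ _⟩

lemma pi6_pos (w : Word 6) : 0 < pi6 w := div_pos (wt_posR w) tot_pos

lemma pi6_stat : IsStationary t6 pi6 := by
  refine ⟨fun w => (pi6_pos w).le, ?_, fun v => ?_⟩
  · unfold pi6
    rw [← Finset.sum_div]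
    exact div_self tot_pos.ne'
  · rw [inflow, outflow]
    have h := (wt_bal v).2
    have hR : (∑ p, if v (p - 1) < v p then (wt (swapLeft v p) : ℝ) * r (v (p - 1)) else 0) =
      wt v * ∑ p, if v p < v (p - 1) then (r (v p) : ℝ) else 0 := by exact_mod_cast h
    have e1 : (∑ p, if v (p - 1) < v p then pi6 (swapLeft v p) * (1 / t6 (v (p - 1))) else 0) =
        (∑ p, if v (p - 1) < v p then (wt (swapLeft v p) : ℝ) * r (v (p - 1)) else 0) /
          (16 * tot) := by
      rw [Finset.sum_div]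
      refine Finset.sum_congr rfl fun p _ => ?_
      split_ifs
      · rw [t6_eq]
        unfold pi6
        have := tot_pos.ne'
        field_simp
      · simp
    have e2 : (∑ p, if v p < v (p - 1) then 1 / t6 (v p) else 0) =
        (∑ p, if v p < v (p - 1) then (r (v p) : ℝ) else 0) / 16 := by
      rw [Finset.sum_div]
      refine Finset.sum_congr rfl fun p _ => ?_
      split_ifs
      · rw [t6_eq]
      · simp
    rw [e1, e2, hR]
    unfold pi6
    have := tot_pos.ne'
    field_simp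

/-! ### the conditional probabilities -/

/-- the small entries `0` and `1` are at the positions `0` and `4` -/
def pos6 : Fin 6 → Fin 6 := ![0, 4, 0, 0, 0, 0]

lemma ev_iff (w : Word 6) : Ev 2 pos6 w ↔ w 0 = 0 ∧ w 4 = 1 := by
  unfold Ev
  constructor
  · intro h
    exact ⟨h 0 (by decide), h 1 (by decide)⟩
  · rintro ⟨h0, h1⟩ i hi
    fin_cases i
    · exact h0
    · exact h1
    all_goals exact absurd hi (by decide)

lemma arr_eq (w : Word 6) (h : Ev 2 pos6 w) : arrangement 2 w = [w 1, w 2, w 3, w 5] := by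
  obtain ⟨h0, h4⟩ := (ev_iff w).1 h
  have hb : ∀ i : Fin 6, i ≠ 0 → i ≠ 4 → 2 ≤ ((w i : Fin 6) : ℕ) := by
    intro i hi0 hi4
    have h1 : w i ≠ 0 := fun hh => hi0 (w.injective (hh.trans h0.symm))
    have h2 : w i ≠ 1 := fun hh => hi4 (w.injective (hh.trans h4.symm))
    have h3 : ((w i : Fin 6) : ℕ) ≠ 0 := fun hh => h1 (Fin.ext hh)
    have h5 : ((w i : Fin 6) : ℕ) ≠ 1 := fun hh => h2 (Fin.ext hh)
    omega
  have e : List.ofFn w = [w 0, w 1, w 2, w 3, w 4, w 5] := by
    simp [List.ofFn_succ]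
  unfold arrangement
  rw [e]
  have g1 := hb 1 (by decide) (by decide)
  have g2 := hb 2 (by decide) (by decide)
  have g3 := hb 3 (by decide) (by decide)
  have g5 := hb 5 (by decide) (by decide)
  have g0 : ¬ (2 ≤ ((w 0 : Fin 6) : ℕ)) := by rw [h0]; decide
  have g4 : ¬ (2 ≤ ((w 4 : Fin 6) : ℕ)) := by rw [h4]; decide
  simp [g0, g1, g2, g3, g4, g5]

lemma cond_eq (w₁ : Word 6) (h : Ev 2 pos6 w₁) :
    condProb 2 pos6 pi6 (arrangement 2 w₁) =
      pi6 w₁ / ∑ w, if Ev 2 pos6 w then pi6 w else 0 := by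
  unfold condProb
  congr 1
  rw [Finset.sum_eq_single w₁]
  · rw [if_pos ⟨h, rfl⟩]
  · intro w _ hw
    rw [if_neg]
    rintro ⟨h1, h2⟩
    apply hw
    rw [arr_eq w h1, arr_eq w₁ h] at h2
    obtain ⟨a0, a4⟩ := (ev_iff w).1 h1
    obtain ⟨b0, b4⟩ := (ev_iff w₁).1 h
    simp only [List.cons.injEq, and_true] at h2
    ext i
    fin_cases i
    · exact congrArg Fin.val (a0.trans b0.symm)
    · exact congrArg Fin.val h2.1
    · exact congrArg Fin.val h2.2.1
    · exact congrArg Fin.val h2.2.2.1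
    · exact congrArg Fin.val (a4.trans b4.symm)
    · exact congrArg Fin.val h2.2.2.2
  · intro hh; exact absurd (Finset.mem_univ _) hh

lemma den_pos (w₁ : Word 6) (h : Ev 2 pos6 w₁) :
    0 < ∑ w, if Ev 2 pos6 w then pi6 w else 0 := by
  refine Finset.sum_pos' (fun w _ => ?_) ⟨w₁, Finset.mem_univ _, ?_⟩
  · split_ifs
    · exact (pi6_pos w).le
    · exact le_rfl
  · rw [if_pos h]; exact pi6_pos w₁

/-- a permutation of `Fin 6` from its list of values -/
def mk (f g : Fin 6 → Fin 6) (h1 : ∀ i, g (f i) = i) (h2 : ∀ i, f (g i) = i) : Word 6 :=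
  ⟨f, g, h1, h2⟩

def u0 : Word 6 := mk ![0, 5, 4, 2, 1, 3] ![0, 4, 3, 5, 2, 1] (by decide) (by decide)
lemma u0_ev : Ev 2 pos6 u0 := by rw [ev_iff]; decide +kernel
lemma u0_arr : arrangement 2 u0 = [5, 4, 2, 3] := by rw [arr_eq _ u0_ev]; decide +kernel
def u1 : Word 6 := mk ![0, 5, 4, 3, 1, 2] ![0, 4, 5, 3, 2, 1] (by decide) (by decide)
lemma u1_ev : Ev 2 pos6 u1 := by rw [ev_iff]; decide +kernel
lemma u1_arr : arrangement 2 u1 = [5, 4, 3, 2] := by rw [arr_eq _ u1_ev]; decide +kernel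
def u2 : Word 6 := mk ![0, 4, 3, 2, 1, 5] ![0, 4, 3, 2, 1, 5] (by decide) (by decide)
lemma u2_ev : Ev 2 pos6 u2 := by rw [ev_iff]; decide +kernel
lemma u2_arr : arrangement 2 u2 = [4, 3, 2, 5] := by rw [arr_eq _ u2_ev]; decide +kernel
def u3 : Word 6 := mk ![0, 3, 2, 5, 1, 4] ![0, 4, 2, 1, 5, 3] (by decide) (by decide)
lemma u3_ev : Ev 2 pos6 u3 := by rw [ev_iff]; decide +kernel
lemma u3_arr : arrangement 2 u3 = [3, 2, 5, 4] := by rw [arr_eq _ u3_ev]; decide +kernel
def u4 : Word 6 := mk ![0, 2, 5, 4, 1, 3] ![0, 4, 1, 5, 3, 2] (by decide) (by decide)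
lemma u4_ev : Ev 2 pos6 u4 := by rw [ev_iff]; decide +kernel
lemma u4_arr : arrangement 2 u4 = [2, 5, 4, 3] := by rw [arr_eq _ u4_ev]; decide +kernel


lemma cycDesc_cases (σ : List (Fin 6)) (h : CycDesc 2 σ) :
    σ = [5, 4, 3, 2] ∨ σ = [4, 3, 2, 5] ∨ σ = [3, 2, 5, 4] ∨ σ = [2, 5, 4, 3] := by
  unfold CycDesc at h
  have h' := h.symm
  have e : ((List.finRange 6).filter fun x : Fin 6 => 2 ≤ (x : ℕ)).reverse = [5, 4, 3, 2] := by
    decide +kernel
  rw [e, List.isRotated_iff_mem_map_range] at h'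
  have e2 : (List.range (([5, 4, 3, 2] : List (Fin 6)).length + 1)).map
      (([5, 4, 3, 2] : List (Fin 6)).rotate) =
      [[5, 4, 3, 2], [4, 3, 2, 5], [3, 2, 5, 4], [2, 5, 4, 3], [5, 4, 3, 2]] := by
    decide +kernel
  rw [e2] at h'
  simp only [List.mem_cons, List.not_mem_nil, or_false] at h'
  tauto

/-- For the multispecies TASEP on a ring with six entries, `k = 2` and suitable positive inverse
rates, conditionally on the positions of the two small entries the least probable arrangement of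
the large entries is not cyclically descending. -/
theorem result : ∃ (t : Fin 6 → ℝ) (π : Word 6 → ℝ) (pos : Fin 6 → Fin 6) (w₀ : Word 6),
    (∀ i, 0 < t i) ∧ IsStationary t π ∧ (∀ π', IsStationary t π' → π' = π) ∧
    Ev 2 pos w₀ ∧
    ∀ σ : List (Fin 6), CycDesc 2 σ →
      condProb 2 pos π (arrangement 2 w₀) < condProb 2 pos π σ := by
  refine ⟨t6, pi6, pos6, u0, t6_pos, pi6_stat, fun π' h => uniq t6 t6_pos pi6 π' pi6_stat pi6_pos h,
    u0_ev, ?_⟩
  have key : ∀ w₁ : Word 6, Ev 2 pos6 w₁ → wt u0 < wt w₁ →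
      condProb 2 pos6 pi6 (arrangement 2 u0) < condProb 2 pos6 pi6 (arrangement 2 w₁) := by
    intro w₁ h1 h2
    rw [cond_eq u0 u0_ev, cond_eq w₁ h1]
    have h3 : (wt u0 : ℝ) < wt w₁ := by exact_mod_cast h2
    have h4 : pi6 u0 < pi6 w₁ := div_lt_div_of_pos_right h3 tot_pos
    exact div_lt_div_of_pos_right h4 (den_pos u0 u0_ev)
  intro σ hσ
  rcases cycDesc_cases σ hσ with rfl | rfl | rfl | rfl
  · have := key u1 u1_ev (by decide +kernel); rwa [u1_arr] at this
  · have := key u2 u2_ev (by decide +kernel); rwa [u2_arr] at this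
  · have := key u3 u3_ev (by decide +kernel); rwa [u3_arr] at this
  · have := key u4 u4_ev (by decide +kernel); rwa [u4_arr] at this

end Pool.Agent.Results.MP_01b7fc_pr.DescendingFails
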